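import Pool.Agent.H68.AC.Targets

/-!
# SETH for constant-depth circuits: in a fixed world all trees are shallow
-/

namespace Pool.Agent.H70.AC

open Finset Pool.Agent.H68.AC

theorem exists_path_depth {V : Type} (t : DT V) : ∃ ψ c, IsPath t ψ c ∧ ψ.length = t.depth := by
  induction t with
  | leaf b => exact ⟨[], b, IsPath.leaf b, rfl⟩
  | node v l r ihl ihr =>
    obtain ⟨ψl, cl, hl, hl'⟩ := ihl
    obtain ⟨ψr, cr, hr, hr'⟩ := ihr
    rcases le_total l.depth r.depth with h | h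
    · exact ⟨_, _, IsPath.right v l r ψr cr hr, by simp [DT.depth, hr', h]⟩
    · exact ⟨_, _, IsPath.left v l r ψl cl hl, by simp [DT.depth, hl', h]⟩

theorem gW_eq {V : Type} [DecidableEq V] (P : Finset V) (ψ : List (V × Bool)) :
    gW 2 P ψ * 16 ^ (ψ.filter (fun c => c.1 ∈ P)).length = 2 ^ ψ.length := by
  induction ψ with
  | nil => simp [gW]
  | cons c ψ ih =>
    have h1 : gW 2 P (c :: ψ) = (if c.1 ∈ P then (1 / 8 : ℝ) else 2) * gW 2 P ψ := by
      simp [gW]
    rw [h1]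
    by_cases hc : c.1 ∈ P
    · rw [List.filter_cons_of_pos (by simpa using hc)]
      simp only [hc, if_true, List.length_cons, pow_succ]
      rw [← ih]; ring
    · rw [List.filter_cons_of_neg (by simpa using hc)]
      simp only [hc, if_false, List.length_cons, pow_succ]
      rw [← ih]; ring

theorem filter_le {V : Type} [DecidableEq V] (P : Finset V) (ψ : List (V × Bool))
    (hn : (ψ.map Prod.fst).Nodup) : (ψ.filter (fun c => c.1 ∈ P)).length ≤ P.card := by
  have h1 : ((ψ.filter (fun c => c.1 ∈ P)).map Prod.fst).Nodup :=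
    List.Nodup.sublist (List.Sublist.map _ List.filter_sublist) hn
  have h2 : ((ψ.filter (fun c => c.1 ∈ P)).map Prod.fst).toFinset ⊆ P := by
    intro v hv
    simp only [List.mem_toFinset, List.mem_map, List.mem_filter, decide_eq_true_eq] at hv
    obtain ⟨c, ⟨_, hc⟩, rfl⟩ := hv
    exact hc
  have h3 := Finset.card_le_card h2
  rw [List.toFinset_card_of_nodup h1, List.length_map] at h3
  exact h3

theorem gW_ge {V : Type} [DecidableEq V] (P : Finset V) (ψ : List (V × Bool)) (w : ℕ)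
    (hn : (ψ.map Prod.fst).Nodup) (hw : w < ψ.length) :
    1 ≤ 16 ^ P.card / 2 ^ (w + 1) * gW 2 P ψ := by
  have h0 : 0 ≤ gW 2 P ψ := by
    unfold gW
    apply List.prod_nonneg
    intro a ha
    simp only [List.mem_map] at ha
    obtain ⟨c, _, rfl⟩ := ha
    split_ifs <;> norm_num
  have h1 : (2 : ℝ) ^ (w + 1) ≤ 16 ^ P.card * gW 2 P ψ := by
    calc (2 : ℝ) ^ (w + 1) ≤ 2 ^ ψ.length := pow_le_pow_right₀ (by norm_num) hw
      _ = gW 2 P ψ * 16 ^ (ψ.filter (fun c => c.1 ∈ P)).length := (gW_eq P ψ).symm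
      _ ≤ gW 2 P ψ * 16 ^ P.card :=
        mul_le_mul_of_nonneg_left (pow_le_pow_right₀ (by norm_num) (filter_le P ψ hn)) h0
      _ = _ := mul_comm _ _
  rw [div_mul_eq_mul_div, le_div_iff₀ (by positivity), one_mul]
  exact h1

theorem gW_nonneg {V : Type} [DecidableEq V] {μ : ℝ} (hμ : 0 ≤ μ) (P : Finset V)
    (ψ : List (V × Bool)) : 0 ≤ gW μ P ψ := by
  unfold gW
  apply List.prod_nonneg
  intro a ha
  simp only [List.mem_map] at ha
  obtain ⟨c, _, rfl⟩ := ha
  split_ifs
  · norm_num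
  · exact hμ

theorem w1_nonneg {q p : ℝ} (hq : 0 ≤ q) (hq1 : q ≤ 1) (hp : 0 ≤ p) (hp1 : p ≤ 1) (a : Option Bool) :
    0 ≤ w1 q p a := by
  rcases a with _ | _ | _
  · exact hq
  · exact mul_nonneg (by linarith) (by linarith)
  · exact mul_nonneg (by linarith) hp

theorem wt_nonneg {V : Type} [Fintype V] {q p : ℝ} (hq : 0 ≤ q) (hq1 : q ≤ 1) (hp : 0 ≤ p)
    (hp1 : p ≤ 1) (R : PA V) : 0 ≤ wt q p R :=
  Finset.prod_nonneg (fun v _ => w1_nonneg hq hq1 hp hp1 (R v))

theorem Wt_nonneg {V : Type} [Fintype V] {d : ℕ} {q p : ℝ} (hq : 0 ≤ q) (hq1 : q ≤ 1) (hp : 0 ≤ p)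
    (hp1 : p ≤ 1) (R : Fin d → PA V) : 0 ≤ Wt q p R :=
  Finset.prod_nonneg (fun j _ => wt_nonneg hq hq1 hp hp1 (R j))

theorem ind_nonneg (a : Prop) : 0 ≤ ind a := by unfold ind; split_ifs <;> norm_num

theorem ind_true {a : Prop} (h : a) : ind a = 1 := by unfold ind; rw [if_pos h]

theorem ind_false {a : Prop} (h : ¬ a) : ind a = 0 := by unfold ind; rw [if_neg h]

theorem nfree_le {V : Type} [DecidableEq V] [Fintype V] (κ : PA V) : nfree κ < Fintype.card V + 1 := by
  unfold nfree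
  exact Nat.lt_succ_of_le (Finset.card_le_univ _)

/-- A gate of minimal level with a deep tree. -/
theorem exists_min_gate {V : Type} [DecidableEq V] [Fintype V] {s d : ℕ} (C : Ckt V s d) (w : ℕ)
    (P : Finset V) (R : Fin d → PA V) (hw : 1 ≤ w) (n : ℕ) : ∀ g, C.lev g = n →
    w < (C.T P R g).depth → ∃ g, (∀ c ∈ C.cht P R g, c.2.depth ≤ w) ∧ w < (C.T P R g).depth := by
  induction n using Nat.strong_induction_on with
  | _ n ih =>
    intro g hg hd
    by_cases h : ∀ c ∈ C.cht P R g, c.2.depth ≤ w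
    · exact ⟨g, h, hd⟩
    · push Not at h
      obtain ⟨c, hc, hcd⟩ := h
      obtain ⟨⟨b, a⟩, ha, rfl⟩ := (C.mem_cht P R g c).1 hc
      rcases a with i | g'
      · exfalso
        have : (C.stree P R (Sum.inl i)).depth ≤ 1 := by
          cases i <;> simp [Ckt.stree, Inp.tree, DT.depth]
        simp only at hcd
        omega
      · have hl := C.acyc g b g' ha
        exact ih (C.lev g') (by omega) g' rfl hcd

theorem rho_update {V : Type} [DecidableEq V] {d : ℕ} (P : Finset V) (R : Fin d → PA V) (Q : PA V)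
    (j : Fin d) : rho P (Function.update R j Q) (j.1 + 1) = mask P (mrg (fd R j.1) Q) := by
  unfold rho
  rw [fd_succ _ j.1 j.2]
  congr 1
  have h1 : fd (Function.update R j Q) j.1 = fd R j.1 := by
    funext v
    apply fd_congr
    intro i hi
    have : i ≠ j := by rintro rfl; omega
    rw [Function.update_of_ne this]
  rw [h1]
  congr 1
  exact Function.update_self _ _ _

theorem a_fixed (hSW : T_SW) (hFUB : T_FUB) (hINV : T_INV) (hCANP : T_CANP) (hBPN : T_BPN)
    (V : Type) [DecidableEq V] [Fintype V] (s d : ℕ) (C : Ckt V s d) (w : ℕ)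
    (P : Finset V) (p q : ℝ) (hw : 1 ≤ w) (hp : 0 < p) (hp2 : p ≤ 1 / 2) (hq : 0 < q)
    (hq2 : q ≤ 1 / 2) (hwq : 64 * w * q ≤ p) (g : Fin s) :
    ∑ R : Fin d → PA V, Wt q p R *
      ind ((∀ c ∈ C.cht P R g, c.2.depth ≤ w) ∧ w < (C.T P R g).depth) ≤
      3 / 2 * 16 ^ P.card / 2 ^ (w + 1) := by
  have hB : (0 : ℝ) ≤ 16 ^ P.card / 2 ^ (w + 1) := by positivity
  apply hFUB V d q p
    (fun R => ind ((∀ c ∈ C.cht P R g, c.2.depth ≤ w) ∧ w < (C.T P R g).depth))
    ⟨C.lev g, C.lev_lt g⟩ _ hq.le (by linarith) hp.le (by linarith)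
  intro R
  set j : Fin d := ⟨C.lev g, C.lev_lt g⟩ with hj
  have hcht : ∀ Q, C.cht P (Function.update R j Q) g = C.cht P R g := by
    intro Q
    apply (hINV V s d C P (Function.update R j Q) R).2.2 g
    intro i hi
    have : i ≠ j := by rintro rfl; simp [hj] at hi
    rw [Function.update_of_ne this]
  simp only [hcht]
  by_cases hsh : ∀ c ∈ C.cht P R g, c.2.depth ≤ w
  · have hterm : ∀ Q : PA V, wt q p Q * ind ((∀ c ∈ C.cht P R g, c.2.depth ≤ w) ∧
        w < (C.T P (Function.update R j Q) g).depth) ≤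
        16 ^ P.card / 2 ^ (w + 1) * (wt q p Q *
        ∑ π ∈ BPF (C.cht P R g) (Fintype.card V) (mask P (mrg (fd R j.1) Q)),
          gW 2 P π.flatten) := by
      intro Q
      have hwt : 0 ≤ wt q p Q := wt_nonneg hq.le (by linarith) hp.le (by linarith) Q
      have hsum : 0 ≤ ∑ π ∈ BPF (C.cht P R g) (Fintype.card V) (mask P (mrg (fd R j.1) Q)),
          gW 2 P π.flatten := Finset.sum_nonneg (fun π _ => gW_nonneg (by norm_num) _ _)
      rw [mul_left_comm]
      apply mul_le_mul_of_nonneg_left _ hwt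
      by_cases hdeep : w < (C.T P (Function.update R j Q) g).depth
      · rw [ind_true ⟨hsh, hdeep⟩]
        obtain ⟨ψ, c, hψ, hlen⟩ := exists_path_depth (C.T P (Function.update R j Q) g)
        rw [C.T_eq, hcht] at hψ
        have hr : rho P (Function.update R j Q) (C.lev g + 1) = mask P (mrg (fd R j.1) Q) :=
          rho_update P R Q j
        rw [hr] at hψ
        obtain ⟨π, hπ, hbp, _⟩ := hCANP V _ _ _ _ _ (nfree_le _) hψ
        obtain ⟨hnd, _, hl⟩ := hBPN V _ _ _ hbp
        have hge : 1 ≤ 16 ^ P.card / 2 ^ (w + 1) * gW 2 P π.flatten := by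
          apply gW_ge P _ w hnd
          rw [hπ, hlen]; exact hdeep
        refine hge.trans (mul_le_mul_of_nonneg_left ?_ hB)
        exact Finset.single_le_sum (f := fun π : List (List (V × Bool)) => gW 2 P π.flatten)
          (fun π _ => gW_nonneg (by norm_num) _ _) (mem_BPF.2 ⟨hbp, hl⟩)
      · rw [ind_false (fun h => hdeep h.2)]
        exact mul_nonneg hB hsum
    calc _ ≤ ∑ Q : PA V, 16 ^ P.card / 2 ^ (w + 1) * (wt q p Q *
        ∑ π ∈ BPF (C.cht P R g) (Fintype.card V) (mask P (mrg (fd R j.1) Q)),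
          gW 2 P π.flatten) := Finset.sum_le_sum (fun Q _ => hterm Q)
      _ = 16 ^ P.card / 2 ^ (w + 1) * ∑ Q : PA V, (wt q p Q *
        ∑ π ∈ BPF (C.cht P R g) (Fintype.card V) (mask P (mrg (fd R j.1) Q)),
          gW 2 P π.flatten) := (Finset.mul_sum _ _ _).symm
      _ ≤ 16 ^ P.card / 2 ^ (w + 1) * (3 / 2) :=
        mul_le_mul_of_nonneg_left
          (hSW V (C.cht P R g) w P (fd R j.1) p q (Fintype.card V) hw hsh hp hp2 hq hq2 hwq) hB
      _ = _ := by ring
  · have h0 : ∀ Q : PA V, wt q p Q * ind ((∀ c ∈ C.cht P R g, c.2.depth ≤ w) ∧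
        w < (C.T P (Function.update R j Q) g).depth) = 0 := by
      intro Q
      rw [ind_false (fun h => hsh h.1), mul_zero]
    rw [Finset.sum_congr rfl (fun Q _ => h0 Q), Finset.sum_const_zero]
    positivity

/-- Module A. -/
theorem a_t (hSW : T_SW) (hFUB : T_FUB) (hINV : T_INV) (hCANP : T_CANP) (hBPN : T_BPN) : T_A := by
  intro V _ _ s d C w P p q hw hp hp2 hq hq2 hwq
  have hle : ∀ R : Fin d → PA V, ind (∃ g, w < (C.T P R g).depth) ≤
      ∑ g : Fin s, ind ((∀ c ∈ C.cht P R g, c.2.depth ≤ w) ∧ w < (C.T P R g).depth) := by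
    intro R
    by_cases h : ∃ g, w < (C.T P R g).depth
    · rw [ind_true h]
      obtain ⟨g, hg⟩ := h
      obtain ⟨g', hg'⟩ := exists_min_gate C w P R hw _ g rfl hg
      rw [← ind_true hg']
      exact Finset.single_le_sum
        (f := fun g : Fin s => ind ((∀ c ∈ C.cht P R g, c.2.depth ≤ w) ∧ w < (C.T P R g).depth))
        (fun g _ => ind_nonneg _) (Finset.mem_univ g')
    · rw [ind_false h]
      exact Finset.sum_nonneg (fun g _ => ind_nonneg _)
  calc ∑ R : Fin d → PA V, Wt q p R * ind (∃ g, w < (C.T P R g).depth)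
      ≤ ∑ R : Fin d → PA V, ∑ g : Fin s, Wt q p R *
        ind ((∀ c ∈ C.cht P R g, c.2.depth ≤ w) ∧ w < (C.T P R g).depth) := by
        apply Finset.sum_le_sum
        intro R _
        rw [← Finset.mul_sum]
        exact mul_le_mul_of_nonneg_left (hle R)
          (Wt_nonneg hq.le (by linarith) hp.le (by linarith) R)
    _ = ∑ g : Fin s, ∑ R : Fin d → PA V, Wt q p R *
        ind ((∀ c ∈ C.cht P R g, c.2.depth ≤ w) ∧ w < (C.T P R g).depth) := Finset.sum_comm
    _ ≤ ∑ _g : Fin s, (3 / 2 * 16 ^ P.card / 2 ^ (w + 1) : ℝ) := by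
        apply Finset.sum_le_sum
        intro g _
        exact a_fixed hSW hFUB hINV hCANP hBPN V s d C w P p q hw hp hp2 hq hq2 hwq g
    _ = s * (3 / 2 * 16 ^ P.card / 2 ^ (w + 1)) := by
        rw [Finset.sum_const, Finset.card_univ, Fintype.card_fin, nsmul_eq_mul]

end Pool.Agent.H70.AC
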