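import Pool.Agent.H68.AC.Targets

/-!
# SETH for constant-depth circuits: the first-large argument
-/

namespace Pool.Agent.H70.AC

open Finset Pool.Agent.H68.AC

section

variable {k r : ℕ} {A : Type} [DecidableEq A]

/-- The constraints whose planted position is queried. -/
def HH (e : Fin k → Fin r → Fin k) (x : Fin k → A) (ψ : List (VV k r A × Bool)) : Finset (Fin k) :=
  univ.filter (fun j => pos e x j ∈ ψ.map Prod.fst)

theorem mem_HH {e : Fin k → Fin r → Fin k} {x : Fin k → A} {ψ : List (VV k r A × Bool)} {j : Fin k} :
    j ∈ HH e x ψ ↔ pos e x j ∈ ψ.map Prod.fst := by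
  simp only [HH, mem_filter, mem_univ, true_and]

theorem HH_nil (e : Fin k → Fin r → Fin k) (x : Fin k → A) : HH e x [] = ∅ := by
  ext j
  rw [mem_HH]
  simp

theorem HH_append (e : Fin k → Fin r → Fin k) (x : Fin k → A) (ψ ψ' : List (VV k r A × Bool)) :
    HH e x (ψ ++ ψ') = HH e x ψ ∪ HH e x ψ' := by
  ext j
  rw [mem_union, mem_HH, mem_HH, mem_HH, List.map_append, List.mem_append]

theorem HH_mono (e : Fin k → Fin r → Fin k) (x : Fin k → A) (ψ ψ' : List (VV k r A × Bool))
    (h : ∀ v ∈ ψ.map Prod.fst, v ∈ ψ'.map Prod.fst) : HH e x ψ ⊆ HH e x ψ' := by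
  intro j hj
  rw [mem_HH] at hj ⊢
  exact h _ hj

omit [DecidableEq A] in
theorem pos_inj (e : Fin k → Fin r → Fin k) (x : Fin k → A) {i j : Fin k}
    (h : pos e x i = pos e x j) : i = j := congrArg Prod.fst h

theorem HH_single (e : Fin k → Fin r → Fin k) (x : Fin k → A) (c : VV k r A × Bool) :
    (HH e x [c]).card ≤ 1 := by
  rw [Finset.card_le_one]
  intro i hi j hj
  rw [mem_HH] at hi hj
  simp only [List.map_cons, List.map_nil, List.mem_singleton] at hi hj
  exact pos_inj e x (hi.trans hj.symm)

theorem expd_small {e : Fin k → Fin r → Fin k} {β h : ℕ} (hE : Expd e β h) (H : Finset (Fin k))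
    (hH : (VS e H).card ≤ β) : H.card ≤ h := by
  refine le_trans (Finset.card_le_card ?_) (hE (VS e H) hH)
  intro j hj
  simp only [mem_filter, mem_univ, true_and]
  intro o
  simp only [VS, mem_biUnion, mem_image, mem_univ, true_and]
  exact ⟨j, hj, o, rfl⟩

theorem inp_path {V : Type} (i : Inp V) (τ : List (V × Bool)) (c : Bool) (h : IsPath i.tree τ c) :
    τ = [] ∨ ∃ a, τ = [a] := by
  cases i with
  | const b =>
    simp only [Inp.tree] at h
    cases h
    exact Or.inl rfl
  | var v =>
    simp only [Inp.tree] at h
    cases h with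
    | left _ _ _ ψ _ h =>
      cases h
      exact Or.inr ⟨_, rfl⟩
    | right _ _ _ ψ _ h =>
      cases h
      exact Or.inr ⟨_, rfl⟩

end

/-- Module FL. -/
theorem fl_t (hLOCW : T_LOCW) (hCANP : T_CANP) (hBPS : T_BPS) (hNXS : T_NXS) : T_FL := by
  intro k r s d A _ _ C e x R β h hE h1 hG
  -- all paths of all trees are small
  have key : ∀ n g, C.lev g = n → ∀ ψ c, IsPath (C.T (K e x univ) R g) ψ c →
      (VS e (HH e x ψ)).card ≤ β := by
    intro n
    induction n using Nat.strong_induction_on with
    | _ n ih =>
      intro g hg ψ c hψ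
      rw [C.T_eq] at hψ
      have hnf : nfree (rho (K e x univ) R (C.lev g + 1)) < Fintype.card (VV k r A) + 1 := by
        unfold nfree
        exact Nat.lt_succ_of_le (Finset.card_le_univ _)
      obtain ⟨π, hπ, hbp, _⟩ := hCANP _ _ _ _ _ _ hnf hψ
      have main : ∀ π, IsBP (C.cht (K e x univ) R g) (rho (K e x univ) R (C.lev g + 1)) π →
          (VS e (HH e x π.flatten)).card ≤ β := by
        intro π
        induction π using List.reverseRecOn with
        | nil =>
          intro _
          rw [List.flatten_nil, HH_nil]
          simp [VS]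
        | append_singleton π α ihπ =>
          intro hb
          obtain ⟨hb1, τ, hτ, hfr, hα⟩ := (hBPS _ _ _ _ _).1 hb
          have hs1 : (HH e x π.flatten).card ≤ h := expd_small hE _ (ihπ hb1)
          have hs2 : (HH e x τ).card ≤ h := by
            obtain ⟨c, hc, hp⟩ := ((hNXS _ _ _).1 τ hτ).2.2
            obtain ⟨⟨b, a⟩, ha, rfl⟩ := (C.mem_cht _ R g c).1 hc
            rcases a with i | g'
            · rcases inp_path i τ _ hp with rfl | ⟨a, rfl⟩
              · rw [HH_nil]; simp
              · exact (HH_single e x a).trans h1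
            · have hl := C.acyc g b g' ha
              exact expd_small hE _ (ih (C.lev g') (by omega) g' rfl τ _ hp)
          have hs3 : (HH e x α).card ≤ h := by
            refine (Finset.card_le_card (HH_mono e x α τ ?_)).trans hs2
            intro v hv
            rw [hα, mem_fr] at hv
            exact hv.1
          by_contra hcon
          push Not at hcon
          have hfl : (π ++ [α]).flatten = π.flatten ++ α := by
            rw [List.flatten_append]; simp
          have hcard : (HH e x (π ++ [α]).flatten).card ≤ 2 * h := by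
            rw [hfl, HH_append]
            refine (Finset.card_union_le _ _).trans ?_
            omega
          have hAB : K e x (HH e x (π ++ [α]).flatten) ⊆ K e x univ :=
            Finset.image_subset_image (Finset.subset_univ _)
          have hav : Avoid {v | v ∈ K e x univ ∧ v ∉ K e x (HH e x (π ++ [α]).flatten)}
              (π ++ [α]).flatten := by
            intro c hc hcm
            obtain ⟨hc1, hc2⟩ := hcm
            simp only [K, mem_image, mem_univ, true_and] at hc1
            obtain ⟨j, hj⟩ := hc1
            apply hc2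
            rw [K, mem_image]
            refine ⟨j, ?_, hj⟩
            rw [mem_HH, hj]
            exact List.mem_map_of_mem hc
          have hbA := (hLOCW _ _ _ C _ _ R g hAB).2 _ hb hav
          obtain ⟨v, hv, hvn⟩ := hG _ hcon hcard g _ hbA
          rw [K, mem_image] at hv
          obtain ⟨j, hj, rfl⟩ := hv
          rw [mem_HH] at hj
          exact hvn hj
      rw [← hπ]
      exact main π hbp
  intro g ψ c hψ
  exact key _ g rfl ψ c hψ

end Pool.Agent.H70.AC
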